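import Pool.Agent.ATB.Stmts

/-!
# Row INJ of squad ATB: (5) of the paper
-/

set_option autoImplicit false

namespace Pool.Agent.ATB.H65

open Pool.Agent.ATB

open scoped TensorProduct

theorem inj (fil : FILStmt) (gen : GENStmt) (dqs : DQSStmt) (in1 : IN1Stmt) (in2 : IN2Stmt)
    (clo : CLOStmt) (dif : DIFStmt) : INJStmt := by
  intro K _ n k Z c m hH hex η hη hdη
  have hddd : ∀ x : AA K n, dd (dd x) = 0 := (dif K n).1
  have hclo : ∀ (H : Submodule K (Fin n → K)) (i j : ℤ) (x : AA K n), i + 1 = j →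
      x ∈ Cc (k + 1) Z H i → dd x ∈ Cc (k + 1) Z H j := by
    intro H i j x hij hx
    subst hij
    exact (clo K n (k + 1) Z).2.1 H i x hx
  have hd2 : ∀ (i j : ℤ) (r : ℕ) (x : AA K n), i + 1 = j → x ∈ Qm k Z c r i →
      dd x ∈ Qm k Z c r j := by
    intro i j r x hij hx
    subst hij
    exact (dqs K n k Z c i r).1 x hx
  have hd2' : ∀ (i j : ℤ) (r : ℕ) (x : AA K n), i + 1 = j → x ∈ Qm' k Z c r i →
      dd x ∈ Qm' k Z c r j := by
    intro i j r x hij hx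
    subst hij
    exact (dqs K n k Z c i r).2.1 x hx
  have hd3 : ∀ (i j : ℤ) (r : ℕ) (H : Submodule K (Fin n → K)) (α : AA K n), i + 2 = j → c ∉ H →
      Module.finrank K H = r → α ∈ Cc (k + 1) Z H i →
      dd (wl c (pm (prodm (out Z H)) α)) + wl c (pm (prodm (out Z H)) (dd α)) ∈
        Qm k Z c (r + 1) j := by
    intro i j r H α hij hc hr hα
    subst hij
    exact (dqs K n k Z c i r).2.2.1 H α hc hr hα
  have hd4 : ∀ (i j : ℤ) (r : ℕ) (H : Submodule K (Fin n → K)) (α : AA K n), i + 1 = j → c ∉ H →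
      Module.finrank K H = r → α ∈ Cc (k + 1) Z H i →
      dd (pm (lin c) (pm (prodm (out Z H)) α)) - pm (lin c) (pm (prodm (out Z H)) (dd α)) ∈
        Qm' k Z c r j := by
    intro i j r H α hij hc hr hα
    subst hij
    exact (dqs K n k Z c i r).2.2.2 H α hc hr hα
  have hηQ : ∀ r : ℕ, η ∈ Qm k Z c r m := fun r => ((gen K n k Z c m).2.2.1 r).1 hη
  have hηQ' : ∀ r : ℕ, η ∈ Qm' k Z c r m := fun r =>
    ((gen K n k Z c m).2.2.1 r).2.1 (hηQ (r + 1))
  have h0 : ∃ θ ∈ Qm k Z c 0 (m - 1), dd θ = η := by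
    have hη1 : η ∈ Om (k + 1) (c ::ₘ Z) m := by
      have h := hηQ 0
      rw [(gen K n k Z c m).1] at h
      exact h
    obtain ⟨θ, hθ, hdθ⟩ := hex η hη1 hdη
    refine ⟨θ, ?_, hdθ⟩
    rw [(gen K n k Z c (m - 1)).1]
    exact hθ
  have step1 : ∀ r : ℕ, (∃ θ ∈ Qm k Z c r (m - 1), dd θ = η) →
      ∃ θ ∈ Qm' k Z c r (m - 1), dd θ = η := by
    intro r ⟨θ, hθ, hdθ⟩
    rw [(gen K n k Z c (m - 1)).2.2.2.1 r] at hθ
    obtain ⟨θ', hθ', hdθ'⟩ := fil K (AA K n)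
      {H : Submodule K (Fin n → K) // c ∉ H ∧ Module.finrank K H = r} dd
      (fun H => pm (lin c) ∘ₗ pm (prodm (out Z H.1)))
      (fun H => Cc (k + 1) Z H.1 (m - 1 - 1)) (fun H => Cc (k + 1) Z H.1 (m - 1))
      (fun H => Cc (k + 1) Z H.1 m) (Qm' k Z c r (m - 1)) (Qm' k Z c r m) 1 one_ne_zero hddd
      (fun H x hx => hclo H.1 (m - 1) m x (by ring) hx)
      (fun H x hx => by
        have h := hd4 (m - 1) m r H.1 x (by ring) H.2.1 H.2.2 hx
        rw [one_smul]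
        exact h)
      (fun H x hx => by
        have h := hd4 (m - 1 - 1) (m - 1) r H.1 x (by ring) H.2.1 H.2.2 hx
        rw [one_smul]
        exact h)
      (fun f hf hs => in2 K n k Z c m r f hf hs)
      (fun H x hx hdx => (hH H.1 H.2.1).1 x hx hdx)
      (fun x hx => hd2' (m - 1) m r x (by ring) hx)
      θ hθ (by rw [hdθ]; exact hηQ' r)
    exact ⟨θ', hθ', hdθ'.trans hdθ⟩
  have step2 : ∀ r : ℕ, (∃ θ ∈ Qm' k Z c r (m - 1), dd θ = η) →
      ∃ θ ∈ Qm k Z c (r + 1) (m - 1), dd θ = η := by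
    intro r ⟨θ, hθ, hdθ⟩
    rw [(gen K n k Z c (m - 1)).2.2.2.2 r] at hθ
    have hm : m - 1 - 1 = m - 2 := by ring
    rw [hm] at hθ
    obtain ⟨θ', hθ', hdθ'⟩ := fil K (AA K n)
      {H : Submodule K (Fin n → K) // c ∉ H ∧ Module.finrank K H = r} dd
      (fun H => wl c ∘ₗ pm (prodm (out Z H.1)))
      (fun H => Cc (k + 1) Z H.1 (m - 2 - 1)) (fun H => Cc (k + 1) Z H.1 (m - 2))
      (fun H => Cc (k + 1) Z H.1 (m - 1)) (Qm k Z c (r + 1) (m - 1)) (Qm k Z c (r + 1) m) (-1)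
      (neg_ne_zero.2 one_ne_zero) hddd
      (fun H x hx => hclo H.1 (m - 2) (m - 1) x (by ring) hx)
      (fun H x hx => by
        have h := hd3 (m - 2) m r H.1 x (by ring) H.2.1 H.2.2 hx
        rw [neg_smul, one_smul, sub_neg_eq_add]
        exact h)
      (fun H x hx => by
        have h := hd3 (m - 2 - 1) (m - 1) r H.1 x (by ring) H.2.1 H.2.2 hx
        rw [neg_smul, one_smul, sub_neg_eq_add]
        exact h)
      (fun f hf hs => in1 K n k Z c (m - 1) r f hf (by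
        have e : m - 1 + 1 = m := by ring
        rw [e]
        exact hs))
      (fun H x hx hdx => (hH H.1 H.2.1).2 x hx hdx)
      (fun x hx => hd2 (m - 1) m (r + 1) x (by ring) hx)
      θ hθ (by rw [hdθ]; exact hηQ (r + 1))
    exact ⟨θ', hθ', hdθ'.trans hdθ⟩
  have hall : ∀ r : ℕ, ∃ θ ∈ Qm k Z c r (m - 1), dd θ = η := by
    intro r
    induction r with
    | zero => exact h0
    | succ r ih => exact step2 r (step1 r ih)
  obtain ⟨θ, hθ, hdθ⟩ := hall n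
  rw [(gen K n k Z c (m - 1)).2.1 n le_rfl] at hθ
  exact ⟨θ, hθ, hdθ⟩

end Pool.Agent.ATB.H65
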